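import Pool.Agent.H54Z.IKL.KL

/-! The defining identities on the matroid level, and the coefficients of the inverse polynomial. -/

set_option autoImplicit false
set_option linter.unusedSectionVars false

namespace Pool.Agent.H54Z.IKL

open Finset Module Classical Polynomial Pool.Agent.Helper998.VecMatroid

variable {K V : Type} [Field K] [Fintype K] [AddCommGroup V] [Module K V] [Fintype V]
variable {n : ℕ}

lemma sum_neg_one (x : Finset (Fin n)) :
    ∑ A ∈ x.powerset, (-1 : ℤ[X]) ^ A.card = if x = ∅ then 1 else 0 := by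
  have h := congrArg (C : ℤ →+* ℤ[X]) (Finset.sum_powerset_neg_one_pow_card (x := x))
  rw [map_sum] at h
  simp only [map_pow, map_neg, map_one] at h
  rw [h]
  split_ifs <;> simp

lemma swap_sum (Fl : Finset (Fin n) → Prop) (F G : Finset (Fin n))
    (f : Finset (Fin n) → Finset (Fin n) → ℤ[X]) :
    ∑ H ∈ univ.filter (fun H => Fl H ∧ F ⊆ H ∧ H ⊆ G), ∑ A ∈ (H \ F).powerset, f H A =
      ∑ A ∈ (G \ F).powerset, ∑ H ∈ univ.filter (fun H => Fl H ∧ A ∪ F ⊆ H ∧ H ⊆ G), f H A := by
  apply Finset.sum_comm'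
  intro H A
  simp only [mem_filter, mem_univ, true_and, mem_powerset, union_subset_iff, subset_sdiff]
  constructor
  · rintro ⟨⟨a1, a2, a3⟩, a4, a5⟩
    exact ⟨⟨a1, ⟨a4, a2⟩, a3⟩, a4.trans a3, a5⟩
  · rintro ⟨⟨a1, ⟨a4, a2⟩, a3⟩, -, a5⟩
    exact ⟨⟨a1, a2, a3⟩, a4, a5⟩

section
variable {S : Set V} {v : Fin n → V} (hv : Set.range v = Sᶜ) (h0 : (0 : V) ∈ S)
  (hspan : ∀ U : Submodule K V, ¬ (U : Set V) ⊆ S → Submodule.span K ((U : Set V) \ S) = U)
  (hsym : ∀ r ≤ finrank K V, ∀ k ≤ r,
      gb (Fintype.card K) r k = gb (Fintype.card K) r (r - k))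
include hv h0 hspan hsym

lemma kl_id {F G : Finset (Fin n)} (hF : (vecMatroid K v).IsFlat (F : Set (Fin n)))
    (hG : (vecMatroid K v).IsFlat (G : Set (Fin n))) (hFG : F ⊂ G) :
    reflect (dm (sp K v G) - dm (sp K v F)) (PP S (sp K v F) (sp K v G)) =
      ∑ H ∈ univ.filter (fun H : Finset (Fin n) =>
          (vecMatroid K v).IsFlat (H : Set (Fin n)) ∧ F ⊆ H ∧ H ⊆ G),
        (∑ A ∈ (H \ F).powerset, (-1 : ℤ[X]) ^ A.card *
          X ^ (dm (sp K v H) - dm (sp K v (A ∪ F)))) * PP S (sp K v H) (sp K v G) := by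
  have hmem : F ∈ univ.filter (fun H : Finset (Fin n) =>
      (vecMatroid K v).IsFlat (H : Set (Fin n)) ∧ F ⊆ H ∧ H ⊆ G) := by
    simp only [mem_filter, mem_univ, true_and]
    exact ⟨hF, subset_rfl, hFG.subset⟩
  have e1 : ∀ H ∈ univ.filter (fun H : Finset (Fin n) =>
      (vecMatroid K v).IsFlat (H : Set (Fin n)) ∧ F ⊆ H ∧ H ⊆ G),
      (∑ A ∈ (H \ F).powerset, (-1 : ℤ[X]) ^ A.card *
          X ^ (dm (sp K v H) - dm (sp K v (A ∪ F)))) * PP S (sp K v H) (sp K v G) =
      (∑ A ∈ (H \ F).powerset, (-1 : ℤ[X]) ^ A.card *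
          X ^ (dm (sp K v H) - dm (sp K v (A ∪ F)))) +
        if H = F then PP S (sp K v F) (sp K v G) - 1 else 0 := by
    intro H hH
    simp only [mem_filter, mem_univ, true_and] at hH
    by_cases h : H = F
    · subst h
      simp
    · have hne : H.Nonempty := by
        rw [Finset.nonempty_iff_ne_empty]
        rintro rfl
        exact h (subset_empty.1 hH.2.1).symm
      rw [if_neg h, PP, if_neg (sp_ne_bot hv h0 hne)]
      simp
  rw [Finset.sum_congr rfl e1, Finset.sum_add_distrib, Finset.sum_ite_eq', if_pos hmem, swap_sum]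
  have e2 : ∀ A ∈ (G \ F).powerset,
      ∑ H ∈ univ.filter (fun H : Finset (Fin n) =>
        (vecMatroid K v).IsFlat (H : Set (Fin n)) ∧ A ∪ F ⊆ H ∧ H ⊆ G),
        (-1 : ℤ[X]) ^ A.card * X ^ (dm (sp K v H) - dm (sp K v (A ∪ F))) =
      (∑ H ∈ univ.filter (fun H : Finset (Fin n) =>
        (vecMatroid K v).IsFlat (H : Set (Fin n)) ∧ A ∪ F ⊆ H ∧ H ⊆ G),
        (-1 : ℤ[X]) ^ A.card * X ^ (dm (sp K v G) - dm (sp K v H))) +
        if A = ∅ then WW S (sp K v F) (sp K v G) - WR S (sp K v F) (sp K v G) else 0 := by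
    intro A hA
    rw [← Finset.mul_sum, ← Finset.mul_sum,
      transfer hv hspan (A ∪ F) G hG (fun H => (X : ℤ[X]) ^ (dm H - dm (sp K v (A ∪ F)))),
      transfer hv hspan (A ∪ F) G hG (fun H => (X : ℤ[X]) ^ (dm (sp K v G) - dm H))]
    change _ * WW S _ _ = _ * WR S _ _ + _
    by_cases h : A = ∅
    · subst h
      simp
    · have hne : (A ∪ F).Nonempty :=
        (Finset.nonempty_iff_ne_empty.2 h).mono subset_union_left
      rw [mem_powerset] at hA
      rw [if_neg h, add_zero, WW_eq (not_sub hv hne)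
        (sp_mono v (union_subset (hA.trans sdiff_subset) hFG.subset)) hsym]
  rw [Finset.sum_congr rfl e2, Finset.sum_add_distrib, Finset.sum_ite_eq',
    if_pos (empty_mem_powerset _), ← swap_sum]
  have e3 : ∀ H ∈ univ.filter (fun H : Finset (Fin n) =>
      (vecMatroid K v).IsFlat (H : Set (Fin n)) ∧ F ⊆ H ∧ H ⊆ G),
      ∑ A ∈ (H \ F).powerset, (-1 : ℤ[X]) ^ A.card * X ^ (dm (sp K v G) - dm (sp K v H)) =
        if H = F then X ^ (dm (sp K v G) - dm (sp K v F)) else 0 := by
    intro H hH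
    simp only [mem_filter, mem_univ, true_and] at hH
    rw [← Finset.sum_mul, sum_neg_one]
    by_cases h : H = F
    · subst h
      simp
    · rw [if_neg h, if_neg, zero_mul]
      intro h'
      exact h (Subset.antisymm (sdiff_eq_empty_iff_subset.1 h') hH.2.1)
  rw [Finset.sum_congr rfl e3, Finset.sum_ite_eq', if_pos hmem]
  rcases F.eq_empty_or_nonempty with rfl | hne
  · have hGne : G.Nonempty := Finset.nonempty_iff_ne_empty.2 hFG.ne'
    rw [sp_empty, dm_bot, Nat.sub_zero, PP, if_pos rfl]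
    exact refl_P0 (good_sp hv G) (sp_ne_bot hv h0 hGne)
  · rw [PP, if_neg (sp_ne_bot hv h0 hne), reflect_one,
      WW_eq (not_sub hv hne) (sp_mono v hFG.subset) hsym]
    ring

end

lemma sp_lt (v : Fin n → V) {F G : Finset (Fin n)}
    (hF : (vecMatroid K v).IsFlat (F : Set (Fin n)))
    (hG : (vecMatroid K v).IsFlat (G : Set (Fin n))) (hFG : F ⊂ G) : sp K v F < sp K v G := by
  refine lt_of_le_of_ne (sp_mono v hFG.subset) fun h => hFG.ne ?_
  rw [← (flat_iff v F).1 hF, h, (flat_iff v G).1 hG]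

lemma deg_PP (S : Set V) {U G : Submodule K V} (h : U < G) :
    2 * (PP S U G).natDegree < dm G - dm U := by
  unfold PP
  split_ifs with hb
  · subst hb
    rw [dm_bot, Nat.sub_zero]
    exact deg_P0 S h.ne'
  · have := Submodule.finrank_lt_finrank_of_lt h
    rw [natDegree_one]
    unfold dm
    omega

lemma PP_self (S : Set V) (U : Submodule K V) : PP S U U = 1 := by
  unfold PP
  split_ifs with hb
  · rw [hb, P0_bot]
  · rfl

lemma QQ_self (S : Set V) (U : Submodule K V) : QQ S U U = 1 := by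
  unfold QQ Q0
  split_ifs with hb
  · rfl
  · simp [cq]

/-- number of subspaces of `H` of dimension `j` inside `S` -/
noncomputable def bad (S : Set V) (H : Submodule K V) (j : ℕ) : ℤ :=
  ∑ U ∈ univ.filter (fun U : Submodule K V => (U : Set V) ⊆ S),
    if U ≤ H ∧ H ≤ ⊤ then (if dm U = j then 1 else 0) else 0

lemma bad_eq (S : Set V) (H : Submodule K V) (j : ℕ) : bad S H j =
    (((iv ⊥ H j).filter (fun U : Submodule K V => (U : Set V) ⊆ S)).card : ℤ) := by
  unfold bad
  simp only [← ite_and]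
  rw [Finset.sum_boole]
  congr 2
  ext U
  simp only [mem_filter, mem_univ, true_and, mem_iv, le_top, and_true, bot_le, dm_bot, zero_add]
  tauto

lemma w_eq (S : Set V) (H : Submodule K V) {j : ℕ} (hj : j ≠ 0) :
    w S H j = gb (Fintype.card K) (dm H) j - bad S H j := by
  have h1 := card_iv j (bot_le : (⊥ : Submodule K V) ≤ H)
  rw [dm_bot, Nat.sub_zero] at h1
  rw [bad_eq, ← h1, ← Finset.card_filter_add_card_filter_not
    (s := iv ⊥ H j) (fun U : Submodule K V => (U : Set V) ⊆ S)]
  unfold w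
  push_cast
  rw [add_sub_cancel_left]
  congr 2
  ext U
  simp only [mem_filter, mem_univ, true_and, mem_iv, bot_le, dm_bot, zero_add]
  constructor
  · rintro ⟨⟨a1, a2⟩, a3⟩
    refine ⟨⟨a2, a3⟩, a1.resolve_left ?_⟩
    rintro rfl
    exact hj (a3.symm.trans dm_bot)
  · rintro ⟨⟨a2, a3⟩, a1⟩
    exact ⟨⟨Or.inr a1, a2⟩, a3⟩

lemma bad_full {S : Set V} {H : Submodule K V} (hH : (H : Set V) ⊆ S) (j : ℕ) :
    bad S H j = gb (Fintype.card K) (dm H) j := by
  have h1 := card_iv j (bot_le : (⊥ : Submodule K V) ≤ H)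
  rw [dm_bot, Nat.sub_zero] at h1
  rw [bad_eq, ← h1, Finset.filter_true_of_mem]
  intro U hU
  exact fun x hx => hH ((mem_iv.1 hU).2.1 hx)

/-- contribution of one subspace of dimension `u` inside `S` to the coefficient of degree `k` -/
def Psi (q d k u : ℕ) : ℤ :=
  - ∑ j ∈ range (d - u + 1), (gb q (d - u) j : ℤ) * ((-1) ^ (u + j) * cq q (d - (u + j)) *
    if 2 * k < u + j then (if u = k then 1 else 0) - (if u = u + j - k then 1 else 0) else 0)

lemma coeff_Q0 {S : Set V} (h0 : (0 : V) ∈ S)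
    (hsym : ∀ r ≤ finrank K V, ∀ k ≤ r,
      gb (Fintype.card K) r k = gb (Fintype.card K) r (r - k))
    (hV : (⊤ : Submodule K V) ≠ ⊥) {k : ℕ} (hk : k ≠ 0) :
    (Q0 S (⊤ : Submodule K V)).coeff k =
      ∑ U ∈ univ.filter (fun U : Submodule K V => (U : Set V) ⊆ S),
        Psi (Fintype.card K) (finrank K V) k (dm U) := by
  have ht : dm (⊤ : Submodule K V) = finrank K V := finrank_top K V
  set q := Fintype.card K with hq
  set d := finrank K V with hd
  have hle : ∀ H : Submodule K V, dm H ≤ d := fun H => Submodule.finrank_le H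
  unfold Q0
  rw [if_neg hV, coeff_neg, finsetSum_coeff, ht]
  have e1 : ∀ H ∈ (univ.filter (fun H : Submodule K V => good S H ∧ ⊥ ≤ H ∧ H ≤ ⊤)).erase ⊥,
      ((-1 : ℤ[X]) ^ dm H * P0 S H * C (cq q (d - dm H))).coeff k =
      (-1) ^ dm H * cq q (d - dm H) *
        if 2 * k < dm H then bad S H k - bad S H (dm H - k) else 0 := by
    intro H _
    have : (-1 : ℤ[X]) ^ dm H = C ((-1) ^ dm H) := by simp
    rw [this, coeff_mul_C, coeff_C_mul, coeff_P0, if_neg hk, zero_add]
    split_ifs with h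
    · rw [w_eq S H hk, w_eq S H (by omega), ← hsym (dm H) (hle H) k (by omega)]
      ring
    · ring
  rw [Finset.sum_congr rfl e1, Finset.sum_subset (Finset.subset_univ _)]
  · have e2 : ∀ H ∈ (univ : Finset (Submodule K V)),
        ((-1) ^ dm H * cq q (d - dm H) *
          if 2 * k < dm H then bad S H k - bad S H (dm H - k) else 0) =
        ∑ U ∈ univ.filter (fun U : Submodule K V => (U : Set V) ⊆ S),
          if U ≤ H ∧ H ≤ ⊤ then ((-1) ^ dm H * cq q (d - dm H) *
            if 2 * k < dm H then (if dm U = k then 1 else 0) -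
              (if dm U = dm H - k then 1 else 0) else 0) else 0 := by
      intro H _
      by_cases h : 2 * k < dm H
      · simp only [if_pos h]
        unfold bad
        rw [← Finset.sum_sub_distrib, Finset.mul_sum]
        refine Finset.sum_congr rfl fun U _ => ?_
        by_cases h' : U ≤ H ∧ H ≤ ⊤
        · simp only [if_pos h']
        · simp only [if_neg h']
          ring
      · simp only [if_neg h]
        simp
    rw [Finset.sum_congr rfl e2, Finset.sum_comm, ← Finset.sum_neg_distrib]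
    refine Finset.sum_congr rfl fun U _ => ?_
    rw [← Finset.sum_filter, sum_iv (le_top : U ≤ ⊤) (fun x => (-1 : ℤ) ^ x * cq q (d - x) *
      if 2 * k < x then (if dm U = k then 1 else 0) - (if dm U = x - k then 1 else 0) else 0), ht]
    rfl
  · intro H _ hH
    have hS : (H : Set V) ⊆ S := by
      by_contra hS
      apply hH
      rw [mem_erase]
      simp only [mem_filter, mem_univ, true_and]
      refine ⟨?_, Or.inr hS, bot_le, le_top⟩
      rintro rfl
      apply hS
      intro x hx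
      have : x = 0 := by simpa using hx
      rw [this]
      exact h0
    split_ifs with h
    · rw [bad_full hS, bad_full hS, ← hsym (dm H) (hle H) k (by omega)]
      ring
    · ring

end Pool.Agent.H54Z.IKL
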