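import Mathlib

/-! Counting subspaces of a finite vector space between two given subspaces. -/

set_option autoImplicit false
set_option linter.unusedSectionVars false

namespace Pool.Agent.H54Z.IKL

open Finset Module Classical

/-- The q-integer. -/
def br (q r : ℕ) : ℕ := ∑ i ∈ range r, q ^ i

/-- Gaussian binomial coefficient at `q`. -/
def gb (q : ℕ) : ℕ → ℕ → ℕ
  | _, 0 => 1
  | r, j + 1 => br q r * gb q (r - 1) j / br q (j + 1)

lemma br_mul (q r : ℕ) : ((br q r : ℕ) : ℤ) * ((q : ℤ) - 1) = (q : ℤ) ^ r - 1 := by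
  unfold br
  push_cast
  exact geom_sum_mul (q : ℤ) r

lemma br_pos (q r : ℕ) : 0 < br q (r + 1) := by
  unfold br
  rw [Finset.sum_range_succ']
  simp

variable {K V : Type} [Field K] [Fintype K] [AddCommGroup V] [Module K V] [Fintype V]

/-- dimension of a subspace -/
noncomputable abbrev dm (U : Submodule K V) : ℕ := finrank K U

/-- subspaces between `U` and `W` of dimension `dm U + j` -/
noncomputable def iv (U W : Submodule K V) (j : ℕ) : Finset (Submodule K V) :=
  univ.filter (fun H => U ≤ H ∧ H ≤ W ∧ dm H = dm U + j)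

lemma mem_iv {U W H : Submodule K V} {j : ℕ} :
    H ∈ iv U W j ↔ U ≤ H ∧ H ≤ W ∧ dm H = dm U + j := by
  simp [iv]

lemma dm_mono {U W : Submodule K V} (h : U ≤ W) : dm U ≤ dm W := Submodule.finrank_mono h

lemma eq_of_dm {U W : Submodule K V} (h : U ≤ W) (h2 : dm W ≤ dm U) : U = W :=
  Submodule.eq_of_le_of_finrank_le h h2

lemma card_sub (U : Submodule K V) :
    (univ.filter (fun v : V => v ∈ U)).card = Fintype.card K ^ dm U := by
  have h := Module.natCard_eq_pow_finrank (K := K) (V := U)
  rw [Nat.card_eq_fintype_card, Nat.card_eq_fintype_card] at h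
  rw [← h, Fintype.card_subtype]

lemma card_diff {U W : Submodule K V} (h : U ≤ W) :
    ((univ.filter (fun v : V => v ∈ W ∧ v ∉ U)).card : ℤ) =
      (Fintype.card K : ℤ) ^ dm W - (Fintype.card K : ℤ) ^ dm U := by
  have h1 := card_sub U
  have h2 := card_sub W
  have h3 : (univ.filter (fun v : V => v ∈ W)) =
      (univ.filter (fun v : V => v ∈ W ∧ v ∉ U)) ∪ (univ.filter (fun v : V => v ∈ U)) := by
    ext v
    simp only [mem_filter, mem_univ, true_and, mem_union]
    constructor
    · intro hv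
      by_cases hu : v ∈ U
      · exact Or.inr hu
      · exact Or.inl ⟨hv, hu⟩
    · rintro (hv | hv)
      · exact hv.1
      · exact h hv
  have h4 : Disjoint (univ.filter (fun v : V => v ∈ W ∧ v ∉ U))
      (univ.filter (fun v : V => v ∈ U)) := by
    rw [Finset.disjoint_left]
    intro v hv hv'
    simp only [mem_filter, mem_univ, true_and] at hv hv'
    exact hv.2 hv'
  rw [h3, card_union_of_disjoint h4, h1] at h2
  have : ((univ.filter (fun v : V => v ∈ W ∧ v ∉ U)).card : ℤ) + (Fintype.card K : ℤ) ^ dm U =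
      (Fintype.card K : ℤ) ^ dm W := by exact_mod_cast h2
  linarith

lemma atoms {U W : Submodule K V} (h : U ≤ W) :
    (iv U W 1).card = br (Fintype.card K) (dm W - dm U) := by
  set q := Fintype.card K with hq
  have hq1 : 1 < q := Fintype.one_lt_card
  have hmaps : ∀ v ∈ (univ.filter (fun v : V => v ∈ W ∧ v ∉ U)),
      U ⊔ Submodule.span K {v} ∈ iv U W 1 := by
    intro v hv
    simp only [mem_filter, mem_univ, true_and] at hv
    rw [mem_iv]
    refine ⟨le_sup_left, sup_le h ?_, Submodule.finrank_sup_span_singleton hv.2⟩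
    rw [Submodule.span_le, Set.singleton_subset_iff]
    exact hv.1
  have h1 := Finset.card_eq_sum_card_fiberwise hmaps
  have h2 : ∀ A ∈ iv U W 1,
      (((univ.filter (fun v : V => v ∈ W ∧ v ∉ U)).filter
        (fun v => U ⊔ Submodule.span K {v} = A)).card : ℤ) =
        (q : ℤ) ^ (dm U + 1) - (q : ℤ) ^ dm U := by
    intro A hA
    rw [mem_iv] at hA
    rw [← hA.2.2, ← card_diff hA.1]
    congr 2
    ext v
    simp only [mem_filter, mem_univ, true_and]
    constructor
    · rintro ⟨⟨-, h2⟩, h3⟩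
      refine ⟨?_, h2⟩
      rw [← h3]
      exact Submodule.mem_sup_right (Submodule.mem_span_singleton_self v)
    · rintro ⟨h1, h2⟩
      refine ⟨⟨hA.2.1 h1, h2⟩, eq_of_dm (sup_le hA.1 ?_) ?_⟩
      · rw [Submodule.span_le, Set.singleton_subset_iff]
        exact h1
      · rw [hA.2.2]
        exact (Submodule.finrank_sup_span_singleton h2).ge
  have h3 : ((univ.filter (fun v : V => v ∈ W ∧ v ∉ U)).card : ℤ) =
      ((iv U W 1).card : ℤ) * ((q : ℤ) ^ (dm U + 1) - (q : ℤ) ^ dm U) := by
    rw [h1]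
    push_cast
    rw [Finset.sum_congr rfl h2]
    simp
    ring
  rw [card_diff h] at h3
  have h4 := br_mul q (dm W - dm U)
  have h5 : dm W = dm U + (dm W - dm U) := by
    have := dm_mono h
    omega
  have h6 : (q : ℤ) ^ dm W = (q : ℤ) ^ dm U * (q : ℤ) ^ (dm W - dm U) := by
    rw [← pow_add, ← h5]
  have hqz : (0 : ℤ) < (q : ℤ) - 1 := by
    have : (1 : ℤ) < q := by exact_mod_cast hq1
    linarith
  have hp : (0 : ℤ) < (q : ℤ) ^ dm U := by positivity
  have h7 : ((iv U W 1).card : ℤ) * ((q : ℤ) ^ dm U * ((q : ℤ) - 1)) =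
      ((br q (dm W - dm U) : ℕ) : ℤ) * ((q : ℤ) ^ dm U * ((q : ℤ) - 1)) := by
    have e1 : ((br q (dm W - dm U) : ℕ) : ℤ) * ((q : ℤ) ^ dm U * ((q : ℤ) - 1)) =
        (q : ℤ) ^ dm U * (((br q (dm W - dm U) : ℕ) : ℤ) * ((q : ℤ) - 1)) := by ring
    rw [e1, h4]
    have e2 : ((iv U W 1).card : ℤ) * ((q : ℤ) ^ dm U * ((q : ℤ) - 1)) =
        ((iv U W 1).card : ℤ) * ((q : ℤ) ^ (dm U + 1) - (q : ℤ) ^ dm U) := by ring
    rw [e2, ← h3, h6]
    ring
  have h8 := mul_right_cancel₀ (ne_of_gt (mul_pos hp hqz)) h7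
  exact_mod_cast h8

lemma card_iv (j : ℕ) : ∀ {U W : Submodule K V}, U ≤ W →
    (iv U W j).card = gb (Fintype.card K) (dm W - dm U) j := by
  induction j with
  | zero =>
    intro U W h
    have : iv U W 0 = {U} := by
      ext H
      rw [mem_iv, mem_singleton]
      constructor
      · rintro ⟨h1, -, h3⟩
        exact (eq_of_dm h1 (by omega)).symm
      · rintro rfl
        exact ⟨le_rfl, h, rfl⟩
    rw [this]
    simp [gb]
  | succ j ih =>
    intro U W h
    set q := Fintype.card K with hq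
    have key := Finset.sum_card_bipartiteAbove_eq_sum_card_bipartiteBelow
      (s := iv U W 1) (t := iv U W (j + 1)) (fun A H => A ≤ H)
    have h1 : ∀ A ∈ iv U W 1, ((iv U W (j + 1)).bipartiteAbove (fun A H => A ≤ H) A).card =
        gb q (dm W - dm U - 1) j := by
      intro A hA
      rw [mem_iv] at hA
      have e : (iv U W (j + 1)).bipartiteAbove (fun A H => A ≤ H) A = iv A W j := by
        ext H
        rw [mem_bipartiteAbove, mem_iv, mem_iv]
        constructor
        · rintro ⟨⟨-, a2, a3⟩, a4⟩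
          exact ⟨a4, a2, by omega⟩
        · rintro ⟨a1, a2, a3⟩
          exact ⟨⟨hA.1.trans a1, a2, by omega⟩, a1⟩
      rw [e, ih hA.2.1, hA.2.2]
      congr 1
    have h2 : ∀ H ∈ iv U W (j + 1), ((iv U W 1).bipartiteBelow (fun A H => A ≤ H) H).card =
        br q (j + 1) := by
      intro H hH
      rw [mem_iv] at hH
      have e : (iv U W 1).bipartiteBelow (fun A H => A ≤ H) H = iv U H 1 := by
        ext A
        rw [mem_bipartiteBelow, mem_iv, mem_iv]
        constructor
        · rintro ⟨⟨a1, -, a3⟩, a4⟩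
          exact ⟨a1, a4, a3⟩
        · rintro ⟨a1, a2, a3⟩
          exact ⟨⟨a1, a2.trans hH.2.1, a3⟩, a2⟩
      rw [e, atoms hH.1, hH.2.2]
      congr 1
      omega
    rw [Finset.sum_congr rfl h1, Finset.sum_congr rfl h2] at key
    simp only [sum_const, smul_eq_mul] at key
    rw [atoms h] at key
    show _ = br q (dm W - dm U) * gb q (dm W - dm U - 1) j / br q (j + 1)
    rw [key, Nat.mul_div_cancel _ (br_pos q j)]

/-- A sum over an interval of subspaces of a function of the dimension. -/
lemma sum_iv {R : Type} [CommRing R] {U W : Submodule K V} (h : U ≤ W) (f : ℕ → R) :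
    ∑ H ∈ univ.filter (fun H : Submodule K V => U ≤ H ∧ H ≤ W), f (dm H) =
      ∑ j ∈ range (dm W - dm U + 1), (gb (Fintype.card K) (dm W - dm U) j : R) * f (dm U + j) := by
  have hmaps : ∀ H ∈ univ.filter (fun H : Submodule K V => U ≤ H ∧ H ≤ W),
      dm H - dm U ∈ range (dm W - dm U + 1) := by
    intro H hH
    simp only [mem_filter, mem_univ, true_and] at hH
    have := dm_mono hH.2
    rw [mem_range]
    omega
  rw [← Finset.sum_fiberwise_of_maps_to hmaps]
  refine Finset.sum_congr rfl fun j _ => ?_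
  rw [← card_iv j h]
  have e : (univ.filter (fun H : Submodule K V => U ≤ H ∧ H ≤ W)).filter
      (fun H => dm H - dm U = j) = iv U W j := by
    ext H
    rw [mem_iv]
    simp only [mem_filter, mem_univ, true_and]
    constructor
    · rintro ⟨⟨a1, a2⟩, a3⟩
      have := dm_mono a1
      exact ⟨a1, a2, by omega⟩
    · rintro ⟨a1, a2, a3⟩
      exact ⟨⟨a1, a2⟩, by omega⟩
  rw [e, Finset.sum_congr rfl (g := fun _ => f (dm U + j))]
  · simp
  · intro H hH
    rw [(mem_iv.1 hH).2.2]

end Pool.Agent.H54Z.IKL
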