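import Pool.Agent.H54Z.IKL.Asm

/-! The example: the projective space of dimension six over the field with seven elements,
with a plane and many further points removed. -/

set_option autoImplicit false
set_option linter.unusedSectionVars false

namespace Pool.Agent.H54Z.IKL

open Finset Module Classical Polynomial

section
variable {K : Type} [Field K]

/-- the removed vectors -/
def SS (K : Type) [Field K] : Set (Fin 7 → K) :=
  {x | (x 0 = 0 ∧ x 4 = 0 ∧ x 5 = 0 ∧ x 6 = 0) ∨ (x 0 ≠ 0 ∧ ∀ i, i ≠ 0 → x i ≠ 0 ∧ x i ≠ x 0)}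

def emb (K : Type) [Field K] : (Fin 3 → K) →ₗ[K] (Fin 7 → K) where
  toFun y := ![0, y 0, y 1, y 2, 0, 0, 0]
  map_add' y z := by
    ext i
    fin_cases i <;> simp
  map_smul' c y := by
    ext i
    fin_cases i <;> simp

/-- the removed plane -/
def Pl (K : Type) [Field K] : Submodule K (Fin 7 → K) := LinearMap.range (emb K)

lemma mem_Pl (x : Fin 7 → K) : x ∈ Pl K ↔ x 0 = 0 ∧ x 4 = 0 ∧ x 5 = 0 ∧ x 6 = 0 := by
  constructor
  · rintro ⟨y, rfl⟩
    exact ⟨rfl, rfl, rfl, rfl⟩
  · rintro ⟨a, b, c, d⟩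
    refine ⟨![x 1, x 2, x 3], ?_⟩
    ext i
    fin_cases i <;> simp [emb, a, b, c, d]

lemma finrank_Pl : finrank K (Pl K) = 3 := by
  unfold Pl
  rw [LinearMap.finrank_range_of_inj]
  · simp
  · intro y z h
    ext i
    fin_cases i
    · exact congrFun h 1
    · exact congrFun h 2
    · exact congrFun h 3

lemma Pl_sub : ((Pl K : Submodule K (Fin 7 → K)) : Set (Fin 7 → K)) ⊆ SS K :=
  fun x hx => Or.inl ((mem_Pl x).1 hx)

lemma line_lemma {u w : Fin 7 → K} (hind : ∀ c : K, u ≠ c • w) (hw : w ≠ 0)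
    (h : ∀ c : K, u + c • w ∈ SS K) : w ∈ Pl K := by
  have key : ∀ (c : K) (i : Fin 7), i ≠ 0 → u 0 + c * w 0 ≠ 0 →
      u i + c * w i ≠ 0 ∧ u i + c * w i ≠ u 0 + c * w 0 := by
    intro c i hi hc
    rcases h c with h1 | h1
    · exact absurd h1.1 hc
    · exact h1.2 i hi
  by_cases hw0 : w 0 = 0
  · by_cases hu0 : u 0 = 0
    · have a : ∀ c : K, u 4 + c * w 4 = 0 ∧ u 5 + c * w 5 = 0 ∧ u 6 + c * w 6 = 0 := by
        intro c
        rcases h c with h1 | h1
        · exact h1.2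
        · exfalso
          apply h1.1
          show u 0 + c * w 0 = 0
          rw [hu0, hw0]
          ring
      have a0 := a 0
      have a1 := a 1
      rw [mem_Pl]
      refine ⟨hw0, ?_, ?_, ?_⟩
      · linear_combination a1.1 - a0.1
      · linear_combination a1.2.1 - a0.2.1
      · linear_combination a1.2.2 - a0.2.2
    · exfalso
      obtain ⟨i, hi⟩ := Function.ne_iff.1 hw
      have hi' : w i ≠ 0 := hi
      have hi0 : i ≠ 0 := by
        rintro rfl
        exact hi' hw0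
      refine (key (-u i / w i) i hi0 ?_).1 ?_
      · rw [hw0]
        simpa using hu0
      · field_simp
        ring
  · exfalso
    obtain ⟨i, hi⟩ := Function.ne_iff.1 (hind (u 0 / w 0))
    have hD : u i * w 0 ≠ u 0 * w i := by
      intro e
      apply hi
      show u i = u 0 / w 0 * w i
      field_simp
      exact e
    have hi0 : i ≠ 0 := by
      rintro rfl
      exact hD rfl
    by_cases hwi : w i = 0
    · have hui : u i ≠ 0 := by
        intro e
        apply hD
        rw [e, hwi]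
        ring
      have e : u 0 + (u i - u 0) / w 0 * w 0 = u i := by
        field_simp
        ring
      refine (key ((u i - u 0) / w 0) i hi0 ?_).2 ?_
      · rw [e]
        exact hui
      · rw [e, hwi]
        ring
    · refine (key (-u i / w i) i hi0 ?_).1 ?_
      · intro e
        apply hD
        field_simp at e
        linear_combination -e
      · field_simp
        ring

lemma span_SS (U : Submodule K (Fin 7 → K)) (hU : ¬ (U : Set (Fin 7 → K)) ⊆ SS K) :
    Submodule.span K ((U : Set (Fin 7 → K)) \ SS K) = U := by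
  apply le_antisymm
  · rw [Submodule.span_le]
    exact Set.sdiff_subset
  · obtain ⟨w, hw1, hw2⟩ := Set.not_subset.1 hU
    have hw : w ∈ Submodule.span K ((U : Set (Fin 7 → K)) \ SS K) :=
      Submodule.subset_span ⟨hw1, hw2⟩
    intro u hu
    by_cases h1 : ∃ c : K, u = c • w
    · obtain ⟨c, rfl⟩ := h1
      exact Submodule.smul_mem _ c hw
    by_cases h2 : ∃ c : K, u + c • w ∉ SS K
    · obtain ⟨c, hc⟩ := h2
      have h3 : u + c • w ∈ Submodule.span K ((U : Set (Fin 7 → K)) \ SS K) :=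
        Submodule.subset_span ⟨U.add_mem hu (U.smul_mem c hw1), hc⟩
      have h4 := Submodule.sub_mem _ h3 (Submodule.smul_mem _ c hw)
      simpa using h4
    · exfalso
      push Not at h1 h2
      refine hw2 (Pl_sub (line_lemma h1 ?_ h2))
      rintro rfl
      exact hw2 (Pl_sub (Pl K).zero_mem)

lemma le_Pl {U : Submodule K (Fin 7 → K)} (hU : (U : Set (Fin 7 → K)) ⊆ SS K)
    (h2 : 2 ≤ finrank K U) : U ≤ Pl K := by
  intro w hw
  by_cases hw0 : w = 0
  · rw [hw0]
    exact (Pl K).zero_mem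
  have : ¬ U ≤ Submodule.span K {w} := by
    intro h
    have h3 := Submodule.finrank_mono h
    rw [finrank_span_singleton hw0] at h3
    omega
  obtain ⟨u, hu1, hu2⟩ := SetLike.not_le_iff_exists.1 this
  refine line_lemma (u := u) ?_ hw0 fun c => hU (U.add_mem hu1 (U.smul_mem c hw))
  intro c hc
  apply hu2
  rw [hc]
  exact Submodule.smul_mem _ c (Submodule.mem_span_singleton_self w)

end

instance : Fact (Nat.Prime 7) := ⟨by norm_num⟩

/-- the number of subspaces of dimension `u` inside the removed set -/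
noncomputable def NN (u : ℕ) : ℕ :=
  ((univ.filter (fun U : Submodule (ZMod 7) (Fin 7 → ZMod 7) =>
    (U : Set (Fin 7 → ZMod 7)) ⊆ SS (ZMod 7))).filter (fun U => dm U = u)).card

lemma NN_big {u : ℕ} (hu : 2 ≤ u) : NN u = gb 7 3 u := by
  have h1 := card_iv u (bot_le : (⊥ : Submodule (ZMod 7) (Fin 7 → ZMod 7)) ≤ Pl (ZMod 7))
  have h2 : dm (Pl (ZMod 7)) = 3 := finrank_Pl
  rw [dm_bot, Nat.sub_zero, h2, ZMod.card] at h1
  rw [← h1]
  unfold NN
  congr 1
  ext U
  simp only [mem_filter, mem_univ, true_and, mem_iv, bot_le, dm_bot, zero_add]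
  constructor
  · rintro ⟨a, b⟩
    exact ⟨le_Pl a (by unfold dm at b; omega), b⟩
  · rintro ⟨a, b⟩
    exact ⟨fun x hx => Pl_sub (a hx), b⟩

lemma exT : ∃ T : Finset (Fin 7 → ZMod 7), T.card = 5 ^ 6 ∧
    ∀ x ∈ T, x 0 = 1 ∧ ∀ i, i ≠ 0 → x i ≠ 0 ∧ x i ≠ 1 := by
  refine ⟨Fintype.piFinset (fun i => if i = 0 then {1} else {2, 3, 4, 5, 6}), ?_, ?_⟩
  · rw [Fintype.card_piFinset]
    decide
  · intro x hx
    rw [Fintype.mem_piFinset] at hx
    refine ⟨by simpa using hx 0, fun i hi => ?_⟩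
    have := hx i
    rw [if_neg hi] at this
    revert this
    generalize x i = a
    revert a
    decide

lemma NN_one : 5 ^ 6 ≤ NN 1 := by
  obtain ⟨T, hT, hm⟩ := exT
  rw [← hT]
  unfold NN
  refine Finset.card_le_card_of_injOn (fun x => Submodule.span (ZMod 7) {x}) ?_ ?_
  · intro x hx
    obtain ⟨a, b⟩ := hm x (Finset.mem_coe.1 hx)
    have hx0 : x ≠ 0 := by
      intro e
      rw [e] at a
      exact zero_ne_one a
    simp only [coe_filter, mem_filter, mem_univ, true_and, Set.mem_ofPred_eq]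
    refine ⟨?_, finrank_span_singleton hx0⟩
    intro y hy
    obtain ⟨c, rfl⟩ := Submodule.mem_span_singleton.1 hy
    by_cases hc : c = 0
    · rw [hc, zero_smul]
      exact Pl_sub (Pl (ZMod 7)).zero_mem
    · right
      refine ⟨?_, fun i hi => ⟨mul_ne_zero hc (b i hi).1, ?_⟩⟩
      · show c * x 0 ≠ 0
        rw [a, mul_one]
        exact hc
      · show c * x i ≠ c * x 0
        rw [a]
        exact fun e => (b i hi).2 (mul_left_cancel₀ hc e)
  · intro x hx y hy e
    have h1 : x ∈ Submodule.span (ZMod 7) {y} := by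
      have e' : Submodule.span (ZMod 7) {x} = Submodule.span (ZMod 7) {y} := e
      rw [← e']
      exact Submodule.mem_span_singleton_self x
    obtain ⟨c, hc⟩ := Submodule.mem_span_singleton.1 h1
    have h2 : c * y 0 = x 0 := congrFun hc 0
    rw [(hm x (Finset.mem_coe.1 hx)).1, (hm y (Finset.mem_coe.1 hy)).1, mul_one] at h2
    rw [← hc, h2, one_smul]

lemma fr : finrank (ZMod 7) (Fin 7 → ZMod 7) = 7 := by simp

lemma sum_NN (f : ℕ → ℤ) :
    ∑ U ∈ univ.filter (fun U : Submodule (ZMod 7) (Fin 7 → ZMod 7) =>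
      (U : Set (Fin 7 → ZMod 7)) ⊆ SS (ZMod 7)), f (dm U) =
      NN 0 * f 0 + NN 1 * f 1 + 57 * f 2 + f 3 := by
  have hmaps : ∀ U ∈ univ.filter (fun U : Submodule (ZMod 7) (Fin 7 → ZMod 7) =>
      (U : Set (Fin 7 → ZMod 7)) ⊆ SS (ZMod 7)), dm U ∈ range 8 := by
    intro U _
    have := Submodule.finrank_le U
    rw [fr] at this
    rw [mem_range]
    unfold dm
    omega
  rw [← Finset.sum_fiberwise_of_maps_to hmaps]
  have e : ∀ u ∈ range 8, ∑ U ∈ (univ.filter (fun U : Submodule (ZMod 7) (Fin 7 → ZMod 7) =>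
      (U : Set (Fin 7 → ZMod 7)) ⊆ SS (ZMod 7))).filter (fun U => dm U = u), f (dm U) =
      NN u * f u := by
    intro u _
    rw [Finset.sum_congr rfl (g := fun _ => f u)]
    · simp [NN]
    · intro U hU
      rw [(mem_filter.1 hU).2]
  rw [Finset.sum_congr rfl e]
  simp only [Finset.sum_range_succ, Finset.sum_range_zero]
  rw [NN_big (u := 2) (by norm_num), NN_big (u := 3) (by norm_num), NN_big (u := 4) (by norm_num),
    NN_big (u := 5) (by norm_num), NN_big (u := 6) (by norm_num), NN_big (u := 7) (by norm_num)]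
  have g2 : gb 7 3 2 = 57 := by decide +kernel
  have g3 : gb 7 3 3 = 1 := by decide +kernel
  have g4 : gb 7 3 4 = 0 := by decide +kernel
  have g5 : gb 7 3 5 = 0 := by decide +kernel
  have g6 : gb 7 3 6 = 0 := by decide +kernel
  have g7 : gb 7 3 7 = 0 := by decide +kernel
  rw [g2, g3, g4, g5, g6, g7]
  push_cast
  ring

lemma sym7 : ∀ r ≤ finrank (ZMod 7) (Fin 7 → ZMod 7), ∀ k ≤ r,
    gb (Fintype.card (ZMod 7)) r k = gb (Fintype.card (ZMod 7)) r (r - k) := by
  rw [fr, ZMod.card]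
  decide +kernel

lemma mu7 : ∀ r ≤ finrank (ZMod 7) (Fin 7 → ZMod 7), 1 ≤ r → ∑ j ∈ range (r + 1),
    (gb (Fintype.card (ZMod 7)) r j : ℤ) * ((-1) ^ j * cq (Fintype.card (ZMod 7)) (r - j)) = 0 := by
  rw [fr, ZMod.card]
  decide +kernel

lemma zero_SS : (0 : Fin 7 → ZMod 7) ∈ SS (ZMod 7) := Pl_sub (Pl (ZMod 7)).zero_mem

lemma top_ne : (⊤ : Submodule (ZMod 7) (Fin 7 → ZMod 7)) ≠ ⊥ := top_ne_bot

/-- failure of log-concavity -/
lemma fails : (Q0 (SS (ZMod 7)) (⊤ : Submodule (ZMod 7) (Fin 7 → ZMod 7))).coeff 2 ^ 2 <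
    (Q0 (SS (ZMod 7)) (⊤ : Submodule (ZMod 7) (Fin 7 → ZMod 7))).coeff 1 *
    (Q0 (SS (ZMod 7)) (⊤ : Submodule (ZMod 7) (Fin 7 → ZMod 7))).coeff 3 := by
  rw [coeff_Q0 zero_SS sym7 top_ne (k := 1) (by norm_num),
    coeff_Q0 zero_SS sym7 top_ne (k := 2) (by norm_num),
    coeff_Q0 zero_SS sym7 top_ne (k := 3) (by norm_num), fr, ZMod.card,
    sum_NN (Psi 7 7 1), sum_NN (Psi 7 7 2), sum_NN (Psi 7 7 3)]
  have a0 : Psi 7 7 1 0 = 0 := by decide +kernel
  have a1 : Psi 7 7 1 1 = 791213172449 := by decide +kernel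
  have a2 : Psi 7 7 1 2 = -329534849 := by decide +kernel
  have a3 : Psi 7 7 1 3 = 137200 := by decide +kernel
  have b0 : Psi 7 7 2 0 = 0 := by decide +kernel
  have b1 : Psi 7 7 2 1 = 0 := by decide +kernel
  have b2 : Psi 7 7 2 2 = 977550 := by decide +kernel
  have b3 : Psi 7 7 2 3 = -19950 := by decide +kernel
  have c0 : Psi 7 7 3 0 = 0 := by decide +kernel
  have c1 : Psi 7 7 3 1 = 0 := by decide +kernel
  have c2 : Psi 7 7 3 2 = 0 := by decide +kernel
  have c3 : Psi 7 7 3 3 = 1 := by decide +kernel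
  rw [a0, a1, a2, a3, b0, b1, b2, b3, c0, c1, c2, c3]
  have h : ((5 ^ 6 : ℕ) : ℤ) ≤ NN 1 := by exact_mod_cast NN_one
  push_cast at h
  linarith

end Pool.Agent.H54Z.IKL
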