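import Pool.Agent.H54Z.IKL.Mat

/-! Kazhdan-Lusztig polynomials of a projective geometry with a set of points removed,
on the level of subspaces. -/

set_option autoImplicit false
set_option linter.unusedSectionVars false

namespace Pool.Agent.H54Z.IKL

open Finset Module Classical Polynomial

variable {K V : Type} [Field K] [Fintype K] [AddCommGroup V] [Module K V] [Fintype V]

/-- number of good subspaces of `G` of dimension `k` -/
noncomputable def w (S : Set V) (G : Submodule K V) (k : ℕ) : ℤ :=
  ((univ.filter (fun H : Submodule K V => (good S H ∧ ⊥ ≤ H ∧ H ≤ G) ∧ dm H = k)).card : ℤ)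

noncomputable def P0 (S : Set V) (G : Submodule K V) : ℤ[X] :=
  1 + ∑ k ∈ (range (dm G)).filter (fun k => 2 * k < dm G),
    monomial k (w S G (dm G - k) - w S G k)

noncomputable def PP (S : Set V) (U G : Submodule K V) : ℤ[X] := if U = ⊥ then P0 S G else 1

def cq (q r : ℕ) : ℤ := (q : ℤ) ^ (r.choose 2)

noncomputable def Q0 (S : Set V) (G : Submodule K V) : ℤ[X] :=
  if G = ⊥ then 1 else
    - ∑ H ∈ (univ.filter (fun H : Submodule K V => good S H ∧ ⊥ ≤ H ∧ H ≤ G)).erase ⊥,
      (-1) ^ dm H * P0 S H * C (cq (Fintype.card K) (dm G - dm H))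

noncomputable def QQ (S : Set V) (U G : Submodule K V) : ℤ[X] :=
  if U = ⊥ then Q0 S G else C (cq (Fintype.card K) (dm G - dm U))

noncomputable def WW (S : Set V) (U G : Submodule K V) : ℤ[X] :=
  ∑ H ∈ univ.filter (fun H : Submodule K V => good S H ∧ U ≤ H ∧ H ≤ G), X ^ (dm H - dm U)

noncomputable def WR (S : Set V) (U G : Submodule K V) : ℤ[X] :=
  ∑ H ∈ univ.filter (fun H : Submodule K V => good S H ∧ U ≤ H ∧ H ≤ G), X ^ (dm G - dm H)

lemma dm_bot : dm (⊥ : Submodule K V) = 0 := finrank_bot K V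

lemma dm_eq_zero {U : Submodule K V} (h : dm U = 0) : U = ⊥ :=
  (eq_of_dm bot_le (by rw [h]; exact Nat.zero_le _)).symm

lemma coeff_P0 (S : Set V) (G : Submodule K V) (k : ℕ) :
    (P0 S G).coeff k = (if k = 0 then 1 else 0) +
      (if 2 * k < dm G then w S G (dm G - k) - w S G k else 0) := by
  unfold P0
  rw [coeff_add, coeff_one, finsetSum_coeff]
  congr 1
  simp only [coeff_monomial]
  rw [Finset.sum_ite_eq']
  simp only [mem_filter, mem_range]
  by_cases h : 2 * k < dm G
  · rw [if_pos ⟨by omega, h⟩, if_pos h]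
  · rw [if_neg (fun h' => h h'.2), if_neg h]

lemma P0_bot (S : Set V) : P0 S (⊥ : Submodule K V) = 1 := by
  unfold P0
  rw [dm_bot]
  simp

lemma filter_good {S : Set V} {U : Submodule K V} (hU : ¬ (U : Set V) ⊆ S) (G : Submodule K V) :
    univ.filter (fun H : Submodule K V => good S H ∧ U ≤ H ∧ H ≤ G) =
      univ.filter (fun H : Submodule K V => U ≤ H ∧ H ≤ G) := by
  ext H
  simp only [mem_filter, mem_univ, true_and]
  constructor
  · exact fun h => h.2
  · intro h
    exact ⟨Or.inr fun h' => hU (fun x hx => h' (h.1 hx)), h⟩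

lemma WW_eq {S : Set V} {U G : Submodule K V} (hU : ¬ (U : Set V) ⊆ S) (h : U ≤ G)
    (hsym : ∀ r ≤ finrank K V, ∀ k ≤ r,
      gb (Fintype.card K) r k = gb (Fintype.card K) r (r - k)) :
    WW S U G = WR S U G := by
  unfold WW WR
  rw [filter_good hU, sum_iv h (fun x => (X : ℤ[X]) ^ (x - dm U)),
    sum_iv h (fun x => (X : ℤ[X]) ^ (dm G - x)), ← Finset.sum_range_reflect]
  refine Finset.sum_congr rfl fun j hj => ?_
  rw [mem_range] at hj
  have h1 := dm_mono h
  have h2 : dm G ≤ finrank K V := Submodule.finrank_le G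
  rw [hsym (dm G - dm U) (by omega) j (by omega)]
  have e1 : dm G - dm U + 1 - 1 - j = dm G - dm U - j := by omega
  have e2 : dm U + (dm G - dm U - j) - dm U = dm G - (dm U + j) := by omega
  rw [e1, e2]

lemma coeff_WW (S : Set V) (G : Submodule K V) (k : ℕ) : (WW S ⊥ G).coeff k = w S G k := by
  unfold WW w
  rw [finsetSum_coeff]
  simp only [coeff_X_pow, dm_bot, Nat.sub_zero]
  rw [Finset.sum_boole, Finset.filter_filter]
  congr 2
  ext H
  simp only [mem_filter, mem_univ, true_and, eq_comm]

lemma coeff_WR (S : Set V) (G : Submodule K V) (k : ℕ) :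
    (WR S ⊥ G).coeff k = if k ≤ dm G then w S G (dm G - k) else 0 := by
  unfold WR w
  rw [finsetSum_coeff]
  simp only [coeff_X_pow]
  rw [Finset.sum_boole, Finset.filter_filter]
  split_ifs with hk
  · congr 2
    ext H
    simp only [mem_filter, mem_univ, true_and]
    refine and_congr_right fun h => ?_
    have := dm_mono h.2.2
    omega
  · rw [Nat.cast_eq_zero, Finset.card_eq_zero, Finset.filter_eq_empty_iff]
    intro H _ h
    omega

lemma w_zero (S : Set V) (G : Submodule K V) : w S G 0 = 1 := by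
  unfold w
  have : univ.filter (fun H : Submodule K V => (good S H ∧ ⊥ ≤ H ∧ H ≤ G) ∧ dm H = 0) = {⊥} := by
    ext H
    simp only [mem_filter, mem_univ, true_and, mem_singleton]
    constructor
    · exact fun h => dm_eq_zero h.2
    · rintro rfl
      exact ⟨⟨Or.inl rfl, le_rfl, bot_le⟩, dm_bot⟩
  rw [this]
  simp

lemma w_top {S : Set V} {G : Submodule K V} (hG : good S G) : w S G (dm G) = 1 := by
  unfold w
  have : univ.filter (fun H : Submodule K V => (good S H ∧ ⊥ ≤ H ∧ H ≤ G) ∧ dm H = dm G) =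
      {G} := by
    ext H
    simp only [mem_filter, mem_univ, true_and, mem_singleton]
    constructor
    · exact fun h => eq_of_dm h.1.2.2 h.2.ge
    · rintro rfl
      exact ⟨⟨hG, bot_le, le_rfl⟩, rfl⟩
  rw [this]
  simp

lemma w_big (S : Set V) (G : Submodule K V) {k : ℕ} (hk : dm G < k) : w S G k = 0 := by
  unfold w
  rw [Nat.cast_eq_zero, Finset.card_eq_zero, Finset.filter_eq_empty_iff]
  intro H _ h
  have := dm_mono h.1.2.2
  omega

lemma refl_P0 {S : Set V} {G : Submodule K V} (hG : good S G) (hne : G ≠ ⊥) :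
    reflect (dm G) (P0 S G) = X ^ dm G + (WW S ⊥ G - WR S ⊥ G) + (P0 S G - 1) := by
  have hg : dm G ≠ 0 := fun h => hne (dm_eq_zero h)
  ext k
  rw [coeff_reflect, coeff_add, coeff_add, coeff_sub, coeff_sub, coeff_WW, coeff_WR, coeff_X_pow,
    coeff_one, coeff_P0, coeff_P0]
  have a0 := w_zero S G
  have a1 := w_top hG
  by_cases hk : k ≤ dm G
  · rw [revAt_le hk, if_pos hk]
    have e : dm G - (dm G - k) = k := by omega
    rw [e]
    by_cases h1 : k = dm G
    · subst h1
      rw [Nat.sub_self, if_pos rfl, if_pos rfl, if_pos (by omega), if_neg hg, if_neg (by omega)]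
      ring
    · have b1 : ¬ (dm G - k = 0) := by omega
      rw [if_neg b1, if_neg h1]
      rcases lt_trichotomy (2 * k) (dm G) with h2 | h2 | h2
      · have b2 : ¬ (2 * (dm G - k) < dm G) := by omega
        rw [if_neg b2, if_pos h2]
        ring
      · have b2 : ¬ (2 * (dm G - k) < dm G) := by omega
        have b3 : ¬ (2 * k < dm G) := by omega
        rw [if_neg b2, if_neg b3]
        have : dm G - k = k := by omega
        rw [this]
        ring
      · have b2 : 2 * (dm G - k) < dm G := by omega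
        have b3 : ¬ (2 * k < dm G) := by omega
        rw [if_pos b2, if_neg b3]
        ring
  · have b1 : ¬ (k = 0) := by omega
    have b2 : ¬ (2 * k < dm G) := by omega
    have b3 : ¬ (k = dm G) := by omega
    rw [revAt_eq_self_of_lt (by omega), if_neg b1, if_neg b2, if_neg b3, if_neg hk,
      w_big S G (by omega)]
    ring

lemma deg_P0 (S : Set V) {G : Submodule K V} (hne : G ≠ ⊥) :
    2 * (P0 S G).natDegree < dm G := by
  have hg : dm G ≠ 0 := fun h => hne (dm_eq_zero h)
  have : (P0 S G).natDegree ≤ (dm G - 1) / 2 := by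
    rw [natDegree_le_iff_coeff_eq_zero]
    intro k hk
    rw [coeff_P0, if_neg (by omega), if_neg (by omega)]
    simp
  omega

/-- the inversion identity -/
lemma inv_id {S : Set V} (h0 : (0 : V) ∈ S) {U G : Submodule K V} (hU : good S U) (h : U < G)
    (hmu : ∀ r ≤ finrank K V, 1 ≤ r → ∑ j ∈ range (r + 1),
      (gb (Fintype.card K) r j : ℤ) * ((-1) ^ j * cq (Fintype.card K) (r - j)) = 0) :
    ∑ H ∈ univ.filter (fun H : Submodule K V => good S H ∧ U ≤ H ∧ H ≤ G),
      (-1) ^ (dm H - dm U) * PP S U H * QQ S H G = 0 := by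
  by_cases hb : U = ⊥
  · subst hb
    have hm : (⊥ : Submodule K V) ∈
        univ.filter (fun H : Submodule K V => good S H ∧ ⊥ ≤ H ∧ H ≤ G) := by
      simp only [mem_filter, mem_univ, true_and]
      exact ⟨hU, le_rfl, bot_le⟩
    rw [← Finset.add_sum_erase _ _ hm]
    have e1 : (-1 : ℤ[X]) ^ (dm (⊥ : Submodule K V) - dm (⊥ : Submodule K V)) *
        PP S (⊥ : Submodule K V) ⊥ * QQ S ⊥ G = Q0 S G := by
      simp [PP, QQ, P0_bot]
    rw [e1]
    have e2 : ∀ H ∈ (univ.filter (fun H : Submodule K V => good S H ∧ ⊥ ≤ H ∧ H ≤ G)).erase ⊥,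
        (-1 : ℤ[X]) ^ (dm H - dm (⊥ : Submodule K V)) * PP S ⊥ H * QQ S H G =
        (-1) ^ dm H * P0 S H * C (cq (Fintype.card K) (dm G - dm H)) := by
      intro H hH
      rw [mem_erase] at hH
      simp only [PP, QQ, if_neg hH.1, if_true, dm_bot, Nat.sub_zero]
    rw [Finset.sum_congr rfl e2]
    unfold Q0
    rw [if_neg h.ne']
    ring
  · have hU' : ¬ (U : Set V) ⊆ S := hU.resolve_left hb
    rw [filter_good hU', Finset.sum_congr rfl (g := fun H =>
      (fun x => C ((-1) ^ (x - dm U) * cq (Fintype.card K) (dm G - x))) (dm H))]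
    · rw [sum_iv h.le (fun x => C ((-1) ^ (x - dm U) * cq (Fintype.card K) (dm G - x)))]
      have h1 := Submodule.finrank_lt_finrank_of_lt h
      have h2 : dm G ≤ finrank K V := Submodule.finrank_le G
      have h3 := hmu (dm G - dm U) (by omega) (by unfold dm; omega)
      have h4 := congrArg (C : ℤ →+* ℤ[X]) h3
      rw [map_sum, map_zero] at h4
      rw [← h4]
      refine Finset.sum_congr rfl fun j _ => ?_
      have e1 : dm U + j - dm U = j := by omega
      have e2 : dm G - (dm U + j) = dm G - dm U - j := by omega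
      rw [e1, e2]
      simp only [map_mul, map_natCast]
    · intro H hH
      simp only [mem_filter, mem_univ, true_and] at hH
      have hH' : H ≠ ⊥ := fun e => hb (le_bot_iff.1 (e ▸ hH.1))
      simp [PP, QQ, if_neg hb, if_neg hH']

end Pool.Agent.H54Z.IKL
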