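import Pool.Agent.H54Z.IKL.Count
import Pool.Agent.Helper998.VecMatroid

/-! Flats and ranks of a vector matroid whose vectors are the complement of a set `S`. -/

set_option autoImplicit false
set_option linter.unusedSectionVars false

namespace Pool.Agent.H54Z.IKL

open Finset Module Classical Pool.Agent.Helper998.VecMatroid

variable {K V : Type} [Field K] [Fintype K] [AddCommGroup V] [Module K V] [Fintype V]
variable {n : ℕ}

lemma span_basis (v : Fin n → V) {X I : Set (Fin n)} (hI : (vecMatroid K v).IsBasis I X) :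
    Submodule.span K (v '' I) = Submodule.span K (v '' X) := by
  apply le_antisymm (Submodule.span_mono (Set.image_mono hI.subset))
  rw [Submodule.span_le]
  rintro _ ⟨i, hi, rfl⟩
  by_cases hiB : i ∈ I
  · exact Submodule.subset_span ⟨i, hiB, rfl⟩
  · by_contra hne
    have hind : (vecMatroid K v).Indep (insert i I) := LinearIndepOn.insert hI.indep hne
    exact hiB (hI.mem_of_insert_indep hi hind)

lemma mem_closure (v : Fin n → V) (X : Set (Fin n)) (i : Fin n) :
    i ∈ (vecMatroid K v).closure X ↔ v i ∈ Submodule.span K (v '' X) := by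
  obtain ⟨I, hI⟩ := (vecMatroid K v).exists_isBasis X
  rw [← hI.closure_eq_closure, ← span_basis v hI, hI.indep.mem_closure_iff']
  simp only [vecMatroid_E, Set.mem_univ, true_and]
  constructor
  · intro h
    by_contra hne
    have hind : (vecMatroid K v).Indep (insert i I) := LinearIndepOn.insert hI.indep hne
    exact hne (Submodule.subset_span ⟨i, h hind, rfl⟩)
  · intro h hind
    by_contra hi
    rw [vecMatroid_indep] at hind
    exact hind.notMem_span_of_insert hi h

lemma rk_eq (v : Fin n → V) (X : Set (Fin n)) :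
    ((vecMatroid K v).eRk X).toNat = dm (Submodule.span K (v '' X)) := by
  obtain ⟨I, hI⟩ := (vecMatroid K v).exists_isBasis X
  have hli : LinearIndepOn K v I := hI.indep
  rw [← hI.encard_eq_eRk, ← span_basis v hI, ← toENat_rank_span_set hli]
  rfl

/-- span of the vectors of a finite set of indices -/
noncomputable def sp (K : Type) [Field K] [Module K V] (v : Fin n → V) (X : Finset (Fin n)) :
    Submodule K V :=
  Submodule.span K (v '' (X : Set (Fin n)))

/-- indices of the vectors in a subspace -/
noncomputable def fl (v : Fin n → V) (U : Submodule K V) : Finset (Fin n) :=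
  univ.filter (fun i => v i ∈ U)

/-- subspaces that come from flats -/
def good (S : Set V) (U : Submodule K V) : Prop := U = ⊥ ∨ ¬ (U : Set V) ⊆ S

lemma sp_le_iff (v : Fin n → V) (X : Finset (Fin n)) (U : Submodule K V) :
    sp K v X ≤ U ↔ X ⊆ fl v U := by
  unfold sp fl
  rw [Submodule.span_le]
  constructor
  · intro h i hi
    simp only [mem_filter, mem_univ, true_and]
    exact h ⟨i, hi, rfl⟩
  · rintro h _ ⟨i, hi, rfl⟩
    have := h hi
    simp only [mem_filter, mem_univ, true_and] at this
    exact this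

lemma sp_mono (v : Fin n → V) {X Y : Finset (Fin n)} (h : X ⊆ Y) : sp K v X ≤ sp K v Y :=
  Submodule.span_mono (Set.image_mono (by exact_mod_cast h))

lemma flat_iff (v : Fin n → V) (X : Finset (Fin n)) :
    (vecMatroid K v).IsFlat (X : Set (Fin n)) ↔ fl v (sp K v X) = X := by
  rw [Matroid.isFlat_iff_closure_eq, ← Finset.coe_inj]
  have : ((fl v (sp K v X) : Finset (Fin n)) : Set (Fin n)) =
      (vecMatroid K v).closure (X : Set (Fin n)) := by
    ext i
    rw [mem_closure]
    simp only [fl, sp, coe_filter, mem_univ, true_and]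
    exact Iff.rfl
  rw [this]

lemma rk_sp (v : Fin n → V) (X : Finset (Fin n)) :
    ((vecMatroid K v).eRk (X : Set (Fin n))).toNat = dm (sp K v X) := rk_eq v _

lemma sp_empty (v : Fin n → V) : sp K v ∅ = ⊥ := by simp [sp]

section
variable {S : Set V} {v : Fin n → V} (hv : Set.range v = Sᶜ) (h0 : (0 : V) ∈ S)
  (hspan : ∀ U : Submodule K V, ¬ (U : Set V) ⊆ S → Submodule.span K ((U : Set V) \ S) = U)
include hv

lemma not_sub {X : Finset (Fin n)} (hX : X.Nonempty) : ¬ ((sp K v X : Submodule K V) : Set V) ⊆ S := by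
  obtain ⟨i, hi⟩ := hX
  intro h
  have h1 : v i ∈ sp K v X := Submodule.subset_span ⟨i, hi, rfl⟩
  have h2 : v i ∈ Sᶜ := hv ▸ ⟨i, rfl⟩
  exact h2 (h h1)

lemma good_sp (X : Finset (Fin n)) : good S (sp K v X) := by
  rcases X.eq_empty_or_nonempty with rfl | hX
  · exact Or.inl (sp_empty v)
  · exact Or.inr (not_sub hv hX)

include h0 in
lemma sp_ne_bot {X : Finset (Fin n)} (hX : X.Nonempty) : sp K v X ≠ ⊥ := by
  intro h
  apply not_sub (K := K) hv hX
  rw [h]
  intro x hx
  have : x = 0 := by simpa using hx
  rw [this]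
  exact h0

include hspan in
lemma sp_fl {U : Submodule K V} (hU : good S U) : sp K v (fl v U) = U := by
  apply le_antisymm ((sp_le_iff v _ U).2 subset_rfl)
  rcases hU with rfl | hU
  · exact bot_le
  · conv_lhs => rw [← hspan U hU]
    apply Submodule.span_mono
    rintro x ⟨hx1, hx2⟩
    have : x ∈ Set.range v := hv ▸ hx2
    obtain ⟨i, rfl⟩ := this
    refine ⟨i, ?_, rfl⟩
    simp only [fl, coe_filter, mem_univ, true_and, Set.mem_ofPred_eq]
    exact hx1

include hspan in
lemma transfer {R : Type} [AddCommMonoid R] (B G : Finset (Fin n))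
    (hG : (vecMatroid K v).IsFlat (G : Set (Fin n))) (φ : Submodule K V → R) :
    ∑ H ∈ univ.filter (fun H : Finset (Fin n) =>
        (vecMatroid K v).IsFlat (H : Set (Fin n)) ∧ B ⊆ H ∧ H ⊆ G), φ (sp K v H) =
      ∑ U ∈ univ.filter (fun U : Submodule K V => good S U ∧ sp K v B ≤ U ∧ U ≤ sp K v G), φ U := by
  refine Finset.sum_bij' (fun H _ => sp K v H) (fun U _ => fl v U) ?_ ?_ ?_ ?_ ?_
  · intro H hH
    simp only [mem_filter, mem_univ, true_and] at hH ⊢
    exact ⟨good_sp hv H, sp_mono v hH.2.1, sp_mono v hH.2.2⟩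
  · intro U hU
    simp only [mem_filter, mem_univ, true_and] at hU ⊢
    refine ⟨?_, (sp_le_iff v B U).1 hU.2.1, ?_⟩
    · rw [flat_iff, sp_fl hv hspan hU.1]
    · rw [← (flat_iff v G).1 hG]
      intro i hi
      simp only [fl, mem_filter, mem_univ, true_and] at hi ⊢
      exact hU.2.2 hi
  · intro H hH
    simp only [mem_filter, mem_univ, true_and] at hH
    exact (flat_iff v H).1 hH.1
  · intro U hU
    simp only [mem_filter, mem_univ, true_and] at hU
    exact sp_fl hv hspan hU.1
  · intro H _
    rfl

end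

end Pool.Agent.H54Z.IKL
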